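import Pool.Agent.N649.WL.Inst

set_option autoImplicit false

/-!
# Structures labelled by the orbits of a Polish group

The countable-or-perfect dichotomy passes from an arbitrary analytic equivalence relation `E` (for
instance the orbit equivalence relation of an arbitrary Polish group) to the structures whose places
are labelled by classes of `E`, if it holds for the same structures with labels in `ℕ`. In the
language of groups: it passes to wreath products. It follows that it holds for the structures
without infinite clique subdivision whose tuples are labelled by classes of `E`, and for the linear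
orders with monotone relations whose elements are labelled; for labels which are countable sets of
orbits no hypothesis on the Polish group or the action is needed.
-/

namespace Pool.Agent.Results.MP_5607ba_lc.LabelledStructures

open MeasureTheory
open Pool.Agent.N649.WL (Dc LE LT IH)

/-- `V` meets countably many classes of `R`, or there is a Borel map from the Cantor space to `V`
with pairwise `R`-inequivalent values. -/
def Dichotomy {Y : Type} [MeasurableSpace Y] (R : Y → Y → Prop) (V : Set Y) : Prop :=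
  (∃ S ⊆ V, S.Countable ∧ ∀ y ∈ V, ∃ z ∈ S, R y z) ∨
    ∃ f : (ℕ → Bool) → Y, Measurable f ∧ (∀ b, f b ∈ V) ∧ ∀ b b', b ≠ b' → ¬ R (f b) (f b')

/-- Every `R`-invariant Borel set contained in the class `Z` satisfies the dichotomy. -/
def Dichotomic {Y : Type} [MeasurableSpace Y] (R : Y → Y → Prop) (Z : Set Y) : Prop :=
  ∀ C : Set Y, MeasurableSet C → C ⊆ Z → (∀ y ∈ C, ∀ z, R y z → z ∈ C) → Dichotomy R C

/-- `x` and `x'` are in the same orbit of `G`. -/
def Orbit (G : Type) {X : Type} [SMul G X] (x x' : X) : Prop := ∃ g : G, g • x = x'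

/-- `p` and `q` are in the same orbit of the wreath product of `G` and `H` (the semidirect product
of `G ^ J` and `H`), which acts on the pairs of a point of the `H`-space `Y` and a family of
points of the `G`-space `X` indexed by the `H`-set `J`. -/
def WreathOrbit (G H : Type) {X Y J : Type} [SMul G X] [SMul H Y] [SMul H J]
    (p q : Y × (J → X)) : Prop :=
  ∃ (h : H) (g : J → G), q.1 = h • p.1 ∧ ∀ j, q.2 (h • j) = g j • p.2 j

/-- `p` and `q` are in the same orbit of `H` on the pairs of a point of `Y` and a colouring of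
`J` by natural numbers. -/
def ColourOrbit (H : Type) {Y J : Type} [SMul H Y] [SMul H J] (p q : Y × (J → ℕ)) : Prop :=
  ∃ h : H, q.1 = h • p.1 ∧ ∀ j, q.2 (h • j) = p.2 j

/-- `I σ y y'` says that the permutation `σ` of the set `J` of places is an isomorphism from `y`
to `y'`. The labelled structures `p` and `q` are isomorphic, the labels being read up to `E`. -/
def LabelIso {X Y J : Type} (I : Equiv.Perm J → Y → Y → Prop) (E : X → X → Prop)
    (p q : Y × (J → X)) : Prop :=
  ∃ σ : Equiv.Perm J, I σ p.1 q.1 ∧ ∀ j, E (p.2 j) (q.2 (σ j))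

/-- `y` and `z` list the same classes of `E`. -/
def ListSame {X : Type} (E : X → X → Prop) (y z : ℕ → X) : Prop :=
  (∀ i, ∃ j, E (y i) (z j)) ∧ ∀ j, ∃ i, E (y i) (z j)

/-- Structures on `ℕ` with countably many relations; `a i` is the arity of the relation `i`. -/
abbrev Str (a : ℕ → ℕ) : Type := (i : ℕ) → (Fin (a i) → ℕ) → Bool

/-- The tuples. -/
abbrev Tuple (a : ℕ → ℕ) : Type := Σ i : ℕ, (Fin (a i) → ℕ)

/-- Isomorphism of structures whose tuples are labelled; the labels are read up to `E`, and the
labels of the tuples that are not in the relation do not count. -/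
def TupleIso {a : ℕ → ℕ} {X : Type} (E : X → X → Prop) (p q : Str a × (Tuple a → X)) : Prop :=
  ∃ σ : Equiv.Perm ℕ, (∀ i v, q.1 i (⇑σ ∘ v) = p.1 i v) ∧
    ∀ i v, p.1 i v = true → E (p.2 ⟨i, v⟩) (q.2 ⟨i, ⇑σ ∘ v⟩)

/-- The Gaifman graph: two different elements are adjacent if they occur in a tuple of a
relation. -/
def gaifman {a : ℕ → ℕ} (M : Str a) : SimpleGraph ℕ where
  Adj x y := x ≠ y ∧ ∃ i, ∃ v : Fin (a i) → ℕ, M i v = true ∧ x ∈ Set.range v ∧ y ∈ Set.range v
  symm := ⟨by
    rintro x y ⟨h, i, v, h1, h2, h3⟩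
    exact ⟨h.symm, i, v, h1, h3, h2⟩⟩
  loopless := ⟨fun x h => h.1 rfl⟩

/-- `G` contains a subdivision of the infinite complete graph: branch vertices `v i` and, for
`i < j`, a path from `v i` to `v j`; two of these paths meet only in branch vertices, and a path
contains no branch vertices besides its ends. -/
def CliqueSubdivision (G : SimpleGraph ℕ) : Prop :=
  ∃ v : ℕ → ℕ, Function.Injective v ∧ ∃ P : ∀ i j, G.Walk (v i) (v j),
    (∀ i j, i < j → (P i j).IsPath) ∧
    (∀ i j k, i < j → v k ∈ (P i j).support → k = i ∨ k = j) ∧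
    (∀ i j i' j', i < j → i' < j' → (i, j) ≠ (i', j') → ∀ x, x ∈ (P i j).support →
      x ∈ (P i' j').support → ∃ k, x = v k)

/-- Binary relations `x.1 0, x.1 1, …`, parts `x.2.1 0, x.2.1 1, …` and unary predicates
`x.2.2 0, x.2.2 1, …` on `ℕ`. -/
abbrev SStr : Type := (ℕ → ℕ → ℕ → Bool) × (ℕ → ℕ → Bool) × (ℕ → ℕ → Bool)

/-- The parts cover `ℕ`, the relation `0` is a strict linear order on each part, and between any two
parts `p`, `q` each of the relations is monotone or antitone in each argument (so each part may be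
the whole structure: linear orders with countably many monotone relations). -/
structure Sorted (x : SStr) : Prop where
  cover : ∀ m, ∃ p, x.2.1 p m = true
  irrefl : ∀ m, x.1 0 m m = false
  trans : ∀ p m n k, x.2.1 p m = true → x.2.1 p n = true → x.2.1 p k = true →
    x.1 0 m n = true → x.1 0 n k = true → x.1 0 m k = true
  total : ∀ p m n, x.2.1 p m = true → x.2.1 p n = true →
    m = n ∨ x.1 0 m n = true ∨ x.1 0 n m = true
  first : ∀ i p q,
    (∀ m m' n, x.2.1 p m = true → x.2.1 p m' = true → x.2.1 q n = true → x.1 0 m m' = true →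
      x.1 i m n = true → x.1 i m' n = true) ∨
    (∀ m m' n, x.2.1 p m = true → x.2.1 p m' = true → x.2.1 q n = true → x.1 0 m' m = true →
      x.1 i m n = true → x.1 i m' n = true)
  second : ∀ i p q,
    (∀ m n n', x.2.1 p m = true → x.2.1 q n = true → x.2.1 q n' = true → x.1 0 n n' = true →
      x.1 i m n = true → x.1 i m n' = true) ∨
    (∀ m n n', x.2.1 p m = true → x.2.1 q n = true → x.2.1 q n' = true → x.1 0 n' n = true →
      x.1 i m n = true → x.1 i m n' = true)

/-- `σ` is an isomorphism from `x` to `y`. -/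
def SIso (σ : Equiv.Perm ℕ) (x y : SStr) : Prop :=
  (∀ i m n, y.1 i (σ m) (σ n) = x.1 i m n) ∧ (∀ p m, y.2.1 p (σ m) = x.2.1 p m) ∧
    ∀ j m, y.2.2 j (σ m) = x.2.2 j m

section General

variable {X Y J : Type} [TopologicalSpace X] [PolishSpace X] [MeasurableSpace X] [BorelSpace X]

theorem general [TopologicalSpace Y] [PolishSpace Y] [MeasurableSpace Y] [BorelSpace Y]
    [Countable J] [Nonempty J] {E : X → X → Prop} (hE : Equivalence E)
    (hEa : AnalyticSet {q : X × X | E q.1 q.2}) (I : Equiv.Perm J → Y → Y → Prop)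
    (hI : ∀ y, I 1 y y) (Z : Set X) (K : Set Y) (hX : Dichotomic E Z)
    (hY : Dichotomic (LabelIso I (· = ·)) {p : Y × (J → ℕ) | p.1 ∈ K}) :
    Dichotomic (LabelIso I E) {p : Y × (J → X) | p.1 ∈ K ∧ ∀ j, p.2 j ∈ Z} := by
  intro A hA hAK hinv
  rcases A.eq_empty_or_nonempty with hAe | ⟨a0, ha0⟩
  · left
    exact ⟨∅, Set.empty_subset _, Set.countable_empty, fun x hx => by
      rw [hAe] at hx; exact hx.elim⟩
  obtain ⟨j0⟩ := (inferInstance : Nonempty J)
  exact Pool.Agent.N649.WL.main I hI hE hEa Z hX {q | q.1 ∈ K} hY (a0.2 j0) hA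
    (fun p hp => (hAK hp).2) (fun p hp _ _ _ => (hAK hp).1) hinv

theorem sparse {a : ℕ → ℕ} {E : X → X → Prop} (hE : Equivalence E)
    (hEa : AnalyticSet {q : X × X | E q.1 q.2}) (Z : Set X) (hX : Dichotomic E Z) :
    Dichotomic (TupleIso E) {p : Str a × (Tuple a → X) |
      ¬ CliqueSubdivision (gaifman p.1) ∧ ∀ i v, p.1 i v = true → p.2 ⟨i, v⟩ ∈ Z} := by
  intro A hA hAK hinv
  exact Pool.Agent.N649.WL.labelled_sparse hE hEa Z hX hA (fun p hp => (hAK hp).1)
    (fun p hp => (hAK hp).2) hinv

theorem sorted {E : X → X → Prop} (hE : Equivalence E)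
    (hEa : AnalyticSet {q : X × X | E q.1 q.2}) (Z : Set X) (hX : Dichotomic E Z) :
    Dichotomic (LabelIso SIso E) {p : SStr × (ℕ → X) | Sorted p.1 ∧ ∀ n, p.2 n ∈ Z} := by
  intro A hA hAK hinv
  exact Pool.Agent.N649.WL.labelled_sorted hE hEa Z hX hA
    (fun p hp => ⟨(hAK hp).1.1, (hAK hp).1.2, (hAK hp).1.3, (hAK hp).1.4, (hAK hp).1.5,
      (hAK hp).1.6⟩) (fun p hp => (hAK hp).2) hinv

end General

/-- The theorem on labelled structures, with its consequences. -/
theorem result :
    -- labels in an analytic equivalence relation `E`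
    (∀ (X : Type) [TopologicalSpace X] [PolishSpace X] [MeasurableSpace X] [BorelSpace X]
      (E : X → X → Prop), Equivalence E → AnalyticSet {q : X × X | E q.1 q.2} → ∀ Z : Set X,
      Dichotomic E Z →
      -- all kinds of structures with a countable set of places
      (∀ (Y J : Type) [TopologicalSpace Y] [PolishSpace Y] [MeasurableSpace Y] [BorelSpace Y]
        [Countable J] [Nonempty J] (I : Equiv.Perm J → Y → Y → Prop) (K : Set Y),
        (∀ y, I 1 y y) → Dichotomic (LabelIso I (· = ·)) {p : Y × (J → ℕ) | p.1 ∈ K} →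
        Dichotomic (LabelIso I E) {p : Y × (J → X) | p.1 ∈ K ∧ ∀ j, p.2 j ∈ Z}) ∧
      -- structures without infinite clique subdivision, with labelled tuples
      (∀ a : ℕ → ℕ, Dichotomic (TupleIso E) {p : Str a × (Tuple a → X) |
        ¬ CliqueSubdivision (gaifman p.1) ∧ ∀ i v, p.1 i v = true → p.2 ⟨i, v⟩ ∈ Z}) ∧
      -- linear orders with monotone relations, with labelled elements
      Dichotomic (LabelIso SIso E) {p : SStr × (ℕ → X) | Sorted p.1 ∧ ∀ n, p.2 n ∈ Z}) ∧
    -- wreath products of an arbitrary Polish group `G` with an arbitrary group `H`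
    (∀ (G H X Y J : Type) [TopologicalSpace G] [Group G] [IsTopologicalGroup G] [PolishSpace G]
      [MeasurableSpace G] [BorelSpace G] [MeasurableSpace X] [StandardBorelSpace X]
      [MulAction G X] [MeasurableSMul₂ G X] [Group H] [MeasurableSpace Y] [StandardBorelSpace Y]
      [MulAction H Y] [Countable J] [Nonempty J] [MulAction H J] (Z : Set X) (K : Set Y),
      Dichotomic (Orbit G) Z → Dichotomic (ColourOrbit H) {p : Y × (J → ℕ) | p.1 ∈ K} →
      Dichotomic (WreathOrbit G H) {p : Y × (J → X) | p.1 ∈ K ∧ ∀ j, p.2 j ∈ Z}) ∧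
    -- structures labelled by countable sets of orbits of an arbitrary Polish group
    ∀ (G X : Type) [TopologicalSpace G] [Group G] [IsTopologicalGroup G] [PolishSpace G]
      [MeasurableSpace G] [BorelSpace G] [MeasurableSpace X] [StandardBorelSpace X]
      [MulAction G X] [MeasurableSMul₂ G X],
      (∀ a : ℕ → ℕ, Dichotomic (TupleIso (ListSame (Orbit G)))
        {p : Str a × (Tuple a → ℕ → X) | ¬ CliqueSubdivision (gaifman p.1)}) ∧
      Dichotomic (LabelIso SIso (ListSame (Orbit G))) {p : SStr × (ℕ → ℕ → X) | Sorted p.1} := by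
  refine ⟨?_, ?_, ?_⟩
  · intro X _ _ _ _ E hE hEa Z hX
    exact ⟨fun Y J _ _ _ _ _ _ I K hI hY => general hE hEa I hI Z K hX hY,
      fun a => sparse hE hEa Z hX, sorted hE hEa Z hX⟩
  · intro G H X Y J _ _ _ _ _ _ _ _ _ _ _ _ _ _ _ _ _ Z K hX hY
    let _ := upgradeStandardBorel X
    let _ := upgradeStandardBorel Y
    intro A hA hAK hinv
    exact Pool.Agent.N649.WL.wreath (G := G) (H := H) Z hX K hY hA (fun p hp => (hAK hp).1)
      (fun p hp => (hAK hp).2) hinv
  · intro G X _ _ _ _ _ _ _ _ _ _
    let _ := upgradeStandardBorel X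
    have h1 : Equivalence (Orbit G : X → X → Prop) := Pool.Agent.N649.WL.orb_equiv G
    have h2 : AnalyticSet {q : X × X | Orbit G q.1 q.2} := Pool.Agent.N649.WL.orb_ana G
    have h3 : Equivalence (ListSame (Orbit G : X → X → Prop)) :=
      Pool.Agent.H579R3.SV.J_equiv h1
    have h4 := Pool.Agent.N649.WL.ana_J h2
    have h5 : Dichotomic (ListSame (Orbit G : X → X → Prop)) Set.univ :=
      fun C k1 _ k2 => Pool.Agent.N649.WL.dch_jump h1 h2 C k1 k2
    refine ⟨fun a A hA hAK hinv => ?_, fun A hA hAK hinv => ?_⟩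
    · exact sparse h3 h4 Set.univ h5 A hA (fun p hp => ⟨hAK hp, fun _ _ _ => trivial⟩) hinv
    · exact sorted h3 h4 Set.univ h5 A hA (fun p hp => ⟨hAK hp, fun _ => trivial⟩) hinv

end Pool.Agent.Results.MP_5607ba_lc.LabelledStructures
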