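import Pool.Agent.N481.VT.PmFO

set_option autoImplicit false

/-!
# Vaught's conjecture for piecewise monotone relations on linear orders

Vaught's conjecture, perfect-set form, for countable structures with relations of arbitrary arities
which are determined by piecewise monotone binary relations with respect to a definable linear
order.

A binary relation `R` on a linear order is piecewise monotone if for each `m` the truth value of
`R m n` changes only finitely often when `n` runs through the order, and if for each `k` the order
is the union of finitely many convex pieces (depending on `k`) on each of which the position of the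
`k`-th change (a cut of the order) is an increasing or a decreasing function of `m`. Examples are
unary predicates, the equality, convex equivalence relations, monotone relations, and the graphs
`{(m, n) | n = f m}` and the relations `n < f m` given by a piecewise monotone function `f`, also if
the values of `f` are cuts. More generally, we allow that the first argument is restricted to the
members of a countable definable cover, and the second argument also.

(1) Let `B` be an isomorphism-invariant Borel class of countable structures (in a countable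
relational language, with arbitrary arities), and let countably many binary relations `D k` and sets
`Q r` be defined on each structure in a Borel and equivariant way from finitely many parameters.
If for every structure in `B`, for suitable parameters, one of these relations is a linear order such
that each relation of the structure is determined by finitely many relations `D j` that are piecewise
monotone for this order (with respect to the cover by the sets `Q r`), then `B` has countably many
isomorphism types or contains a perfect set of pairwise non-isomorphic structures.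
(2) In particular this holds for every first-order theory in a countable relational language such
that in each model with universe `ℕ` there is, for suitable parameters, a definable linear order such
that every relation symbol is determined by finitely many binary formulas that define piecewise
monotone relations.

There is no bound on the number of changes or on the number of pieces, and there may be infinitely
many relation symbols, each with its own pieces. The proof codes such a structure canonically, with
a greedy choice of the pieces, by a linear order with countably many monotone relations and unary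
predicates; for these structures the dichotomy is proved in the starting files
(`Pool.Agent.Y558.MC`).
-/

namespace Pool.Agent.Results.MP_5607ba_lc.PiecewiseMonotone

open FirstOrder

/-- Relational structures on `ℕ` with relations of arities `a 0, a 1, ...`. -/
abbrev Str (a : ℕ → ℕ) : Type := (i : ℕ) → (Fin (a i) → ℕ) → Bool

/-- Isomorphism of structures. -/
def Iso {a : ℕ → ℕ} (x y : Str a) : Prop :=
  ∃ σ : Equiv.Perm ℕ, ∀ (i : ℕ) (v : Fin (a i) → ℕ), y i (⇑σ ∘ v) = x i v

/-- Relabelling of a structure by a permutation. -/
def act {a : ℕ → ℕ} (σ : Equiv.Perm ℕ) (x : Str a) : Str a := fun i v => x i (⇑σ.symm ∘ v)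

/-- The class `B` has countably many isomorphism types, or there is a continuous family of pairwise
non-isomorphic members of `B` indexed by the Cantor space. -/
def CountableOrPerfect {a : ℕ → ℕ} (B : Set (Str a)) : Prop :=
  (∃ f : ℕ → Str a, ∀ x ∈ B, ∃ n, Iso (f n) x) ∨
  (∃ g : (ℕ → Bool) → Str a, Continuous g ∧ (∀ c, g c ∈ B) ∧ ∀ c d, Iso (g c) (g d) → c = d)

/-- `lt` is a strict linear order of `ℕ`. -/
structure StrictLinear (lt : ℕ → ℕ → Prop) : Prop where
  irrefl : ∀ m, ¬ lt m m
  trans : ∀ m n k, lt m n → lt n k → lt m k
  total : ∀ m n, m = n ∨ lt m n ∨ lt n m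

/-- `u` is the last of `k + 1` elements of the set `C`, in increasing order, such that the truth
value of `R m` changes at each of the `k` steps. -/
def Alternates (lt R : ℕ → ℕ → Prop) (C : ℕ → Prop) : ℕ → ℕ → ℕ → Prop
  | 0, _, u => C u
  | k + 1, m, u => C u ∧ ∃ v, Alternates lt R C k m v ∧ lt v u ∧ (R m v ↔ ¬ R m u)

/-- The truth value of `R m` changes at least `k` times on the elements of `C` which are at
most `n`. -/
def Changes (lt R : ℕ → ℕ → Prop) (C : ℕ → Prop) (k m n : ℕ) : Prop :=
  ∃ u, Alternates lt R C k m u ∧ (u = n ∨ lt u n)

/-- On the set `A`, the position of the `k`-th change of `R m` on `C` is a decreasing function of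
`m`, or it is an increasing function of `m`. (The position of the `k`-th change is the final segment
`{n | Changes lt R C k m n}`.) -/
def MonotoneOn (lt R : ℕ → ℕ → Prop) (C : ℕ → Prop) (k : ℕ) (A : ℕ → Prop) : Prop :=
  (∀ m m', A m → A m' → lt m m' → ∀ n, Changes lt R C k m n → Changes lt R C k m' n) ∨
  (∀ m m', A m → A m' → lt m m' → ∀ n, Changes lt R C k m' n → Changes lt R C k m n)

/-- The relation `R` is piecewise monotone from `A` to `C`: for every `m` in `A` the truth value of
`R m` changes only finitely often on `C`, and for every `k` the set `A` is the union of finitely many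
pieces `{m | A m ∧ c m = t}`, `t < s`, one after the other with respect to the linear order `lt`, such
that the position of the `k`-th change is monotone on each piece. -/
structure IsPiecewiseMonotone (lt R : ℕ → ℕ → Prop) (A C : ℕ → Prop) : Prop where
  finite : ∀ m, A m → ∃ k, ∀ n, ¬ Changes lt R C k m n
  pieces : ∀ k, ∃ (s : ℕ) (c : ℕ → ℕ), (∀ m, c m < s) ∧
    (∀ m m', A m → A m' → lt m m' → c m ≤ c m') ∧
      ∀ t, MonotoneOn lt R C k fun m => A m ∧ c m = t

/-- Binary relations on structures which are defined from finitely many parameters in a Borel way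
that commutes with the permutations of `ℕ` (by the theorem of Lopez-Escobar, these are the relations
defined by formulas of `L_ω₁ω`). -/
structure Definable {a : ℕ → ℕ} (D : List ℕ → Str a → ℕ → ℕ → Prop) : Prop where
  borel : ∀ p m n, MeasurableSet {x | D p x m n}
  equivariant : ∀ p x (σ : Equiv.Perm ℕ) m n, D (p.map σ) (act σ x) (σ m) (σ n) ↔ D p x m n

/-- The same for sets. -/
structure DefinableSet {a : ℕ → ℕ} (Q : List ℕ → Str a → ℕ → Prop) : Prop where
  borel : ∀ p m, MeasurableSet {x | Q p x m}
  equivariant : ∀ p x (σ : Equiv.Perm ℕ) m, Q (p.map σ) (act σ x) (σ m) ↔ Q p x m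

/-- The relation number `i` of `x` is determined by the binary relations `D j`, `j ∈ J`: its truth
value at a tuple depends only on the truth values of the `D j` at the pairs of entries. -/
def Determined {a : ℕ → ℕ} (x : Str a) (i : ℕ) (D : ℕ → ℕ → ℕ → Prop) (J : Finset ℕ) : Prop :=
  ∀ v w : Fin (a i) → ℕ, (∀ j ∈ J, ∀ s t, D j (v s) (v t) ↔ D j (w s) (w t)) → x i v = x i w

/-- Vaught's conjecture, perfect-set form, for the theory `T` in the language `L` (the body of the
frozen statement): the models with universe `ℕ` fall into countably many isomorphism classes, or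
some continuous family of models, indexed by the Cantor space, consists of pairwise
non-isomorphic models. -/
def Dichotomy (L : FirstOrder.Language.{0, 0}) (T : L.Theory) : Prop :=
  (∃ g : ℕ → L.Structure ℕ, ∀ S : L.Structure ℕ,
      @FirstOrder.Language.Theory.Model L ℕ S T →
        ∃ n : ℕ, Nonempty (@FirstOrder.Language.Equiv L ℕ ℕ S (g n))) ∨
  (∃ f : (ℕ → Bool) → L.Structure ℕ,
      (∀ x : ℕ → Bool, @FirstOrder.Language.Theory.Model L ℕ (f x) T) ∧
      (∀ x y : ℕ → Bool,
          Nonempty (@FirstOrder.Language.Equiv L ℕ ℕ (f x) (f y)) → x = y) ∧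
      (∀ (n : ℕ) (R : L.Relations n) (a : Fin n → ℕ),
          IsClopen {x : ℕ → Bool | @FirstOrder.Language.Structure.RelMap L ℕ (f x) n R a}) ∧
      (∀ (n : ℕ) (F : L.Functions n) (a : Fin n → ℕ) (b : ℕ),
          IsOpen {x : ℕ → Bool | @FirstOrder.Language.Structure.funMap L ℕ (f x) n F a = b}))

/-- The binary relation that the formula `φ` defines in the structure `S` with the parameters `p`. -/
def Rel {L : FirstOrder.Language.{0, 0}} (S : L.Structure ℕ) {k : ℕ} (p : Fin k → ℕ)
    (φ : L.Formula (Fin k ⊕ Fin 2)) (u v : ℕ) : Prop :=
  @FirstOrder.Language.Formula.Realize L ℕ S _ φ (Sum.elim p ![u, v])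

/-- The set that the formula `φ` defines in the structure `S` with the parameters `p`. -/
def Points {L : FirstOrder.Language.{0, 0}} (S : L.Structure ℕ) {k : ℕ} (p : Fin k → ℕ)
    (φ : L.Formula (Fin k ⊕ Fin 1)) (u : ℕ) : Prop :=
  @FirstOrder.Language.Formula.Realize L ℕ S _ φ (Sum.elim p ![u])

/-- The relation symbol `R` is determined in `S` by the formulas in `J`, with the parameters `p`: its
truth value at a tuple depends only on the truth values of these formulas at the pairs of
entries. -/
def DeterminedFO {L : FirstOrder.Language.{0, 0}} (S : L.Structure ℕ) {n : ℕ} (R : L.Relations n)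
    {k : ℕ} (p : Fin k → ℕ) (J : Finset (L.Formula (Fin k ⊕ Fin 2))) : Prop :=
  ∀ v w : Fin n → ℕ, (∀ ψ ∈ J, ∀ s t, Rel S p ψ (v s) (v t) ↔ Rel S p ψ (w s) (w t)) →
    (@FirstOrder.Language.Structure.RelMap L ℕ S n R v ↔
      @FirstOrder.Language.Structure.RelMap L ℕ S n R w)

open Pool.Agent.N481.VT in
theorem alt_eq (lt R : ℕ → ℕ → Prop) (C : ℕ → Prop) :
    ∀ k m u, Alternates lt R C k m u ↔ Alt lt R C k m u := by
  intro k
  induction k with
  | zero => exact fun m u => Iff.rfl
  | succ k ih =>
    intro m u
    exact and_congr_right fun _ => exists_congr fun v => and_congr (ih m v) Iff.rfl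

open Pool.Agent.N481.VT in
theorem chg_eq (lt R : ℕ → ℕ → Prop) (C : ℕ → Prop) (k m n : ℕ) :
    Changes lt R C k m n ↔ Chg lt R C k m n :=
  exists_congr fun u => and_congr (alt_eq lt R C k m u) Iff.rfl

open Pool.Agent.N481.VT Pool.Agent.N481.VT.PM in
theorem nt_of {lt R : ℕ → ℕ → Prop} {A C : ℕ → Prop} (h : IsPiecewiseMonotone lt R A C) :
    NT lt R A C := by
  refine ⟨fun m hm => ?_, fun k => ?_⟩
  · obtain ⟨k, hk⟩ := h.finite m hm
    exact ⟨k, fun n hn => hk n ((chg_eq _ _ _ _ _ _).2 hn)⟩
  · obtain ⟨s, c, h1, h2, h3⟩ := h.pieces k
    refine ⟨s, c, h1, h2, fun t => ?_⟩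
    have h4 := h3 t
    unfold MonotoneOn at h4
    simp only [chg_eq] at h4
    exact h4

theorem result :
    (∀ (a : ℕ → ℕ) (D : ℕ → List ℕ → Str a → ℕ → ℕ → Prop) (Q : ℕ → List ℕ → Str a → ℕ → Prop),
      (∀ k, Definable (D k)) → (∀ r, DefinableSet (Q r)) →
      ∀ B : Set (Str a), MeasurableSet B → (∀ x y, Iso x y → (x ∈ B ↔ y ∈ B)) →
        (∀ x ∈ B, ∃ k p, StrictLinear (D k p x) ∧ ∀ i, ∃ J : Finset ℕ,
          (∀ j ∈ J, ∀ m n, ∃ r s, Q r p x m ∧ Q s p x n ∧
            IsPiecewiseMonotone (D k p x) (D j p x) (Q r p x) (Q s p x)) ∧
          Determined x i (fun j => D j p x) J) →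
        CountableOrPerfect B) ∧
    (∀ L : FirstOrder.Language.{0, 0}, Countable L.Symbols → L.IsRelational → ∀ T : L.Theory,
      (∀ S : L.Structure ℕ, @FirstOrder.Language.Theory.Model L ℕ S T →
        ∃ (k : ℕ) (p : Fin k → ℕ) (φ : L.Formula (Fin k ⊕ Fin 2)), StrictLinear (Rel S p φ) ∧
          ∀ (n : ℕ) (R : L.Relations n), ∃ J : Finset (L.Formula (Fin k ⊕ Fin 2)),
            (∀ ψ ∈ J, ∀ u v, ∃ α β, Points S p α u ∧ Points S p β v ∧
              IsPiecewiseMonotone (Rel S p φ) (Rel S p ψ) (Points S p α) (Points S p β)) ∧
            DeterminedFO S R p J) →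
      Dichotomy L T) := by
  refine ⟨fun a D Q hD hQ B hB hi h => ?_, fun L hL hR T hT => ?_⟩
  · refine Pool.Agent.N481.VT.PM.vc_WN (D := D) (Q := Q)
      (fun k => ⟨(hD k).borel, (hD k).equivariant⟩)
      ⟨fun r => (hQ r).borel, fun r => (hQ r).equivariant⟩ B hB hi fun x hx => ?_
    obtain ⟨k, p, h1, h2⟩ := h x hx
    refine ⟨k, p, ⟨h1.irrefl, h1.trans, h1.total⟩, fun i => ?_⟩
    obtain ⟨J, h3, h4⟩ := h2 i
    refine ⟨J, fun j hj m n => ?_, fun v w hvw hv => ?_⟩
    · obtain ⟨r, s, h5, h6, h7⟩ := h3 j hj m n
      exact ⟨r, s, h5, h6, nt_of h7⟩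
    · rw [← h4 v w hvw]
      exact hv
  · have hc : Countable (Σ n, L.Relations n) := by
      have hL' : Countable ((Σ n, L.Functions n) ⊕ Σ n, L.Relations n) := hL
      exact (Sum.inr_injective (α := Σ n, L.Functions n) (β := Σ n, L.Relations n)).countable
    rcases Pool.Agent.N481.VT.FO.pm_dichotomy hc T (fun S hS => by
      obtain ⟨k, p, φ, h1, h2⟩ := hT S hS
      refine ⟨k, p, Rel S p, Points S p, φ, fun _ _ _ => Iff.rfl, fun _ _ => Iff.rfl,
        ⟨h1.irrefl, h1.trans, h1.total⟩, fun n R => ?_⟩
      obtain ⟨J, h3, h4⟩ := h2 n R
      refine ⟨J, fun ψ hψ u v => ?_, fun v w hvw hv => (h4 v w hvw).1 hv⟩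
      obtain ⟨α, β, h5, h6, h7⟩ := h3 ψ hψ u v
      exact ⟨α, β, h5, h6, nt_of h7⟩) with h | ⟨f, h1, h2, h3⟩
    · exact Or.inl h
    · exact Or.inr ⟨f, h1, h2, h3, fun n F => isEmptyElim F⟩

end Pool.Agent.Results.MP_5607ba_lc.PiecewiseMonotone
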