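import Pool.Agent.N649.SV.Fin
import Pool.Agent.N649.SN.Fin

set_option autoImplicit false

/-!
# The countable-or-perfect dichotomy for varieties of semigroups

The Polish group `Sym(ℕ)` acts on the space `ℕ → ℕ → ℕ` of the binary operations on `ℕ`. Let `V` be
any variety of semigroups, given by a set `E` of identities. We determine for which `V` the
dichotomy holds for all invariant Borel sets of operations in `V`, relative to the group varieties.
A rectangular group is a regular semigroup in which `e f e = e` for all idempotents `e, f`.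

* If `V` satisfies `x y = x z` or `y x = z x`, then the dichotomy holds for `V`.
* If `V` satisfies neither and has a member which is not a rectangular group, then `V` is
  faithfully complete, and the dichotomy for `V` is equivalent to the dichotomy for all countable
  structures, i.e. for all Borel actions of `Sym(ℕ)` on spaces of relational structures.
* If `V` consists of rectangular groups, then the dichotomy for `V` is equivalent to the dichotomy
  for the groups in `V`.
* If `V` contains a nonabelian nilpotent group of odd exponent, then the groups in `V` are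
  faithfully complete.
* So if all groups in `V` are abelian, or `V` contains a nonabelian nilpotent group of odd exponent
  (for instance if all groups in `V` are nilpotent of odd exponent), then the dichotomy holds exactly
  if `V` satisfies `x y = x z` or `y x = z x`, or consists of rectangular groups and has only abelian
  groups, or else it holds for all structures.
-/

namespace Pool.Agent.Results.MP_5607ba_lc.VarietiesOfSemigroups

open Pool.Agent.N649.SG.Light (T Sa)

/-- Isomorphism of operations on `ℕ`: `x` and `y` are in the same orbit of `Sym(ℕ)`. -/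
def OpIso (x y : ℕ → ℕ → ℕ) : Prop := ∃ σ : Equiv.Perm ℕ, ∀ m n, y (σ m) (σ n) = σ (x m n)

/-- Relational structures on `ℕ` with relations of arities `a 0, a 1, ...`. -/
abbrev Str (a : ℕ → ℕ) : Type := (i : ℕ) → (Fin (a i) → ℕ) → Bool

/-- Isomorphism of structures: the orbits of `Sym(ℕ)`. -/
def Iso {a : ℕ → ℕ} (x y : Str a) : Prop :=
  ∃ σ : Equiv.Perm ℕ, ∀ (i : ℕ) (v : Fin (a i) → ℕ), y i (⇑σ ∘ v) = x i v

/-- The dichotomy for the class `K`: every Borel set of members of `K`, invariant under `R`, has
countably many `R`-classes or contains a continuous family, indexed by the Cantor space, of pairwise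
inequivalent members. -/
def Dichotomy {X : Type} [TopologicalSpace X] [MeasurableSpace X] (R : X → X → Prop)
    (K : X → Prop) : Prop :=
  ∀ B : Set X, MeasurableSet B → (∀ x y, R x y → (x ∈ B ↔ y ∈ B)) → (∀ x ∈ B, K x) →
    (∃ f : ℕ → X, ∀ x ∈ B, ∃ n, R (f n) x) ∨
    (∃ g : (ℕ → Bool) → X, Continuous g ∧ (∀ c, g c ∈ B) ∧ ∀ c d, R (g c) (g d) → c = d)

/-- The dichotomy for all countable structures, in all countable relational languages. -/
def DichotomyAll : Prop := ∀ a : ℕ → ℕ, Dichotomy (Iso (a := a)) (fun _ => True)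

/-- `K` is faithfully complete: for every invariant Borel set `B` of structures (in any countable
relational language) there are an invariant Borel set `B'` of members of `K` and a Borel map `F`
from `B'` to `B` that induces a bijection of the orbits. -/
def FaithfullyComplete (K : (ℕ → ℕ → ℕ) → Prop) : Prop :=
  ∀ (a : ℕ → ℕ) (B : Set (Str a)), MeasurableSet B → (∀ x y, Iso x y → (x ∈ B ↔ y ∈ B)) →
    ∃ (B' : Set (ℕ → ℕ → ℕ)) (F : (ℕ → ℕ → ℕ) → Str a), MeasurableSet B' ∧
      (∀ y z, OpIso y z → (y ∈ B' ↔ z ∈ B')) ∧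
      (∀ y ∈ B', K y) ∧ Measurable F ∧ (∀ y ∈ B', F y ∈ B) ∧
      (∀ y ∈ B', ∀ z ∈ B', OpIso y z ↔ Iso (F y) (F z)) ∧ ∀ x ∈ B, ∃ y ∈ B', Iso x (F y)

variable {M : Type}

/-- `o` is in the variety of semigroups given by the identities `E`. -/
def InVariety (E : Set (T × T)) (o : M → M → M) : Prop :=
  (∀ x y z : M, o (o x y) z = o x (o y z)) ∧ Sa E o

/-- `o` is a group (or empty), if it is associative. -/
def IsGroup (o : M → M → M) : Prop := ∀ a b : M, (∃ x, o a x = b) ∧ ∃ x, o x a = b

/-- `o` is a rectangular group, if it is associative. -/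
def IsRectGroup (o : M → M → M) : Prop :=
  (∀ a : M, ∃ x, o (o a x) a = a) ∧ ∀ e f : M, o e e = e → o f f = f → o (o e f) e = e

/-- All members of the variety are rectangular groups. -/
def AllRectGroups (E : Set (T × T)) : Prop :=
  ∀ (M : Type) (o : M → M → M), InVariety E o → IsRectGroup o

/-- All groups in the variety are abelian. -/
def AbelianGroups (E : Set (T × T)) : Prop :=
  ∀ (M : Type) (o : M → M → M), InVariety E o → IsGroup o → ∀ x y : M, o x y = o y x

/-- The variety contains a nonabelian nilpotent group of odd exponent. -/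
def OddNilpotent (E : Set (T × T)) : Prop :=
  ∃ (G : Type) (_ : Group G), InVariety E (fun x y : G => x * y) ∧ Group.IsNilpotent G ∧
    (∃ k : ℕ, Odd k ∧ ∀ x : G, x ^ k = 1) ∧ ∃ a b : G, a * b ≠ b * a

/-- `x y = x z` holds in all members of the variety, or `y x = z x` does. -/
def Unary (E : Set (T × T)) : Prop :=
  (∀ (M : Type) (o : M → M → M), InVariety E o → ∀ x y z : M, o x y = o x z) ∨
    ∀ (M : Type) (o : M → M → M), InVariety E o → ∀ x y z : M, o y x = o z x

theorem result (E : Set (T × T)) :
    (Unary E → Dichotomy OpIso (InVariety E)) ∧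
    (¬ AllRectGroups E →
      (Dichotomy OpIso (InVariety E) ↔ Unary E ∨ DichotomyAll) ∧
      (¬ Unary E → FaithfullyComplete (InVariety E))) ∧
    (AllRectGroups E → (Dichotomy OpIso (InVariety E) ↔
      Dichotomy OpIso (fun o => InVariety E o ∧ IsGroup o))) ∧
    (OddNilpotent E → FaithfullyComplete (fun o => InVariety E o ∧ IsGroup o)) ∧
    (AbelianGroups E ∨ OddNilpotent E →
      (Dichotomy OpIso (InVariety E) ↔ Unary E ∨ (AllRectGroups E ∧ AbelianGroups E) ∨
        DichotomyAll) ∧
      (¬ Unary E → ¬ (AllRectGroups E ∧ AbelianGroups E) → FaithfullyComplete (InVariety E))) := by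
  have pv : ∀ {X : Type} [TopologicalSpace X] [MeasurableSpace X] (R : X → X → Prop)
      (K : X → Prop), Dichotomy R K ↔ W889.VC.VCof True R K := by
    intro X _ _ R K
    constructor
    · intro h B h1 h2 h3
      rcases h B h1 h2 h3 with ⟨f, hf⟩ | ⟨g, h3, h4, h5⟩
      · exact Or.inl ⟨f, hf⟩
      · exact Or.inr ⟨g, fun _ => h3, h4, h5⟩
    · intro h B h1 h2 h3
      rcases h B h1 h2 h3 with ⟨f, hf⟩ | ⟨g, h3, h4, h5⟩
      · exact Or.inl ⟨f, hf⟩
      · exact Or.inr ⟨g, h3 trivial, h4, h5⟩
  have mono : ∀ {K K' : (ℕ → ℕ → ℕ) → Prop}, (∀ o, K' o → K o) → Dichotomy OpIso K →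
      Dichotomy OpIso K' := fun h hd B h1 h2 h3 => hd B h1 h2 fun x hx => h x (h3 x hx)
  have hU : Unary E → Dichotomy OpIso (InVariety E) := by
    rintro (h | h)
    · exact mono (fun o ho => ⟨ho.1, h ℕ o ho⟩) ((pv _ _).2 N649.SV.leaf_U.1)
    · exact mono (fun o ho => ⟨ho.1, h ℕ o ho⟩) ((pv _ _).2 N649.SV.leaf_U.2)
  have hall : DichotomyAll → Dichotomy OpIso (InVariety E) := fun h =>
    (pv _ _).2 (N649.SV.vc_of_rel ((pv _ _).1 (h N649.SV.A3)) _)
  have hF : ¬ Unary E → ¬ AllRectGroups E → W889.VC.Faithful OpIso (InVariety E) := by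
    intro h1 h2
    rcases N649.SV.faithful E with h | h | h | h
    · exact h
    · exact absurd (show Unary E from Or.inl fun M o ho => h M o ho.1 ho.2) h1
    · exact absurd (show Unary E from Or.inr fun M o ho => h M o ho.1 ho.2) h1
    · exact absurd (show AllRectGroups E from fun M o ho => (h M o ho.1 ho.2).2) h2
  have hF' : W889.VC.Faithful OpIso (InVariety E) → Dichotomy OpIso (InVariety E) →
      DichotomyAll := fun h hd a => (pv _ _).2 (h.vaught True ((pv _ _).1 hd) a)
  have hG : AllRectGroups E → (Dichotomy OpIso (InVariety E) ↔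
      Dichotomy OpIso (fun o => InVariety E o ∧ IsGroup o)) := by
    intro hr
    refine ⟨mono fun o ho => ho.1, fun h => ?_⟩
    have h1 := N649.SV.leaf_G E ((pv _ _).1 (mono (K' := fun o =>
      N649.SV.Grp o ∧ Sa E o) (fun o ho => ⟨⟨ho.1.1, ho.2⟩, ho.1.2⟩) h))
    exact mono (fun o ho => ⟨⟨ho.1, hr ℕ o ho⟩, ho.2⟩) ((pv _ _).2 h1)
  have hN : OddNilpotent E → W889.VC.Faithful OpIso (fun o => InVariety E o ∧ IsGroup o) := by
    rintro ⟨G, i, h1, h2, h3, h4⟩
    exact (N649.SN.leaf_Nil E ⟨G, i, h1.2, h2, h3, h4⟩).mono fun o ho =>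
      ⟨⟨ho.1.1, ho.2⟩, ho.1.2⟩
  have hNV : OddNilpotent E → W889.VC.Faithful OpIso (InVariety E) := fun h =>
    (hN h).mono fun o ho => ho.1
  have hR : AllRectGroups E → AbelianGroups E → Dichotomy OpIso (InVariety E) := by
    intro hr ha
    refine (hG hr).2 fun B _ _ h3 => Or.inl ?_
    have hnot : ¬ Sa E (fun x y : ℕ+ => x + y) := by
      intro h
      obtain ⟨x, hx⟩ := (hr ℕ+ (fun x y => x + y) ⟨fun x y z => add_assoc x y z, h⟩).1 1
      have := congrArg PNat.val hx
      simp only [PNat.add_coe] at this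
      have h5 := x.pos
      have h6 : ((1 : ℕ+) : ℕ) = 1 := rfl
      omega
    obtain ⟨f, hf⟩ := N649.SN.ab_list_fin hnot
    exact ⟨f, fun x hx => hf x ⟨(h3 x hx).1.1, (h3 x hx).2⟩ (h3 x hx).1.2
      (ha ℕ x (h3 x hx).1 (h3 x hx).2)⟩
  have hA : OddNilpotent E → ¬ AbelianGroups E := by
    rintro ⟨G, i, h1, -, -, a, b, hab⟩ h
    exact hab (h G (fun x y => x * y) h1 (fun a b => ⟨⟨a⁻¹ * b, mul_inv_cancel_left a b⟩,
      ⟨b * a⁻¹, inv_mul_cancel_right b a⟩⟩) a b)
  have hK : AbelianGroups E ∨ OddNilpotent E → ¬ Unary E → ¬ (AllRectGroups E ∧ AbelianGroups E) →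
      W889.VC.Faithful OpIso (InVariety E) := by
    intro h h1 h2
    by_cases hr : AllRectGroups E
    · rcases h with h | h
      · exact absurd ⟨hr, h⟩ h2
      · exact hNV h
    · exact hF h1 hr
  refine ⟨hU, fun hr => ⟨⟨fun h => ?_, ?_⟩, fun h => hF h hr⟩, hG, hN, fun hg => ⟨⟨fun h => ?_, ?_⟩,
    hK hg⟩⟩
  · by_cases hu : Unary E
    · exact Or.inl hu
    · exact Or.inr (hF' (hF hu hr) h)
  · rintro (h | h)
    · exact hU h
    · exact hall h
  · by_cases hu : Unary E
    · exact Or.inl hu
    by_cases hb : AllRectGroups E ∧ AbelianGroups E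
    · exact Or.inr (Or.inl hb)
    · exact Or.inr (Or.inr (hF' (hK hg hu hb) h))
  · rintro (h | h | h)
    · exact hU h
    · exact hR h.1 h.2
    · exact hall h

end Pool.Agent.Results.MP_5607ba_lc.VarietiesOfSemigroups
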